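import Pool.Agent.Lib.MP_361a6f_ag.RR73.Lap

/-!
# Phase and volume for unitary actions of compact groups

`U : K → GL(T)` is a continuous unitary action of a compact group, `s ∈ T` is orthogonal to its
tangent space `gs`.  Then `φ k = ⟪U k s, s⟫ / ‖s‖ ^ 2` satisfies the conditions of the Laplace
lemma.
-/

set_option autoImplicit false
set_option linter.unusedSectionVars false

namespace RLap

open MeasureTheory Filter Topology Set

section expo

variable {A : Type*} [NormedRing A] [NormedAlgebra ℂ A] [CompleteSpace A] [NormOneClass A]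

theorem two_pow_le_fact (n : ℕ) : 2 ^ (n + 1) ≤ (n + 2).factorial := by
  induction n with
  | zero => decide
  | succ n ih =>
    rw [Nat.factorial_succ, pow_succ, mul_comm]
    exact Nat.mul_le_mul (by omega) ih

/-- `exp X = 1 + X + X g X` with `g` close to `1 / 2`. -/
theorem exp_split (X : A) (hX : ‖X‖ ≤ 1) : ∃ g : A, ‖g - (1 / 2 : ℂ) • (1 : A)‖ ≤ ‖X‖ ∧
    NormedSpace.exp X = 1 + X + X * g * X := by
  have hn : ∀ n : ℕ, ‖X ^ n‖ ≤ 1 := fun n => (norm_pow_le X n).trans (pow_le_one₀ (norm_nonneg _) hX)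
  have hf : ∀ n : ℕ, ‖(((n + 2).factorial : ℂ)⁻¹)‖ ≤ (1 / 2 : ℝ) ^ (n + 1) := by
    intro n
    rw [norm_inv, Complex.norm_natCast, one_div, inv_pow]
    have h1 : (2 : ℝ) ^ (n + 1) ≤ ((n + 2).factorial : ℝ) := by exact_mod_cast two_pow_le_fact n
    gcongr
  have hgeo : Summable fun n : ℕ => (1 / 2 : ℝ) ^ (n + 1) :=
    (summable_nat_add_iff 1).mpr summable_geometric_two
  have hs : Summable fun n : ℕ => ((n + 2).factorial : ℂ)⁻¹ • X ^ n := by
    refine Summable.of_norm_bounded hgeo fun n => ?_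
    rw [norm_smul]
    exact (mul_le_mul (hf n) (hn n) (norm_nonneg _) (by positivity)).trans (by rw [mul_one])
  set g : A := ∑' n : ℕ, ((n + 2).factorial : ℂ)⁻¹ • X ^ n with hg
  refine ⟨g, ?_, ?_⟩
  · have h1 : g = (1 / 2 : ℂ) • (1 : A) + ∑' n : ℕ, ((n + 3).factorial : ℂ)⁻¹ • X ^ (n + 1) := by
      rw [hg, hs.tsum_eq_zero_add]
      simp only [pow_zero]
      congr 1
      norm_num [Nat.factorial]
    rw [h1, add_sub_cancel_left]
    have hb : ∀ n : ℕ, ‖((n + 3).factorial : ℂ)⁻¹ • X ^ (n + 1)‖ ≤ (1 / 2 : ℝ) ^ (n + 1) * ‖X‖ := by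
      intro n
      rw [norm_smul, pow_succ]
      have h2 := hf (n + 1)
      have h3 : (1 / 2 : ℝ) ^ (n + 1 + 1) ≤ (1 / 2 : ℝ) ^ (n + 1) :=
        pow_le_pow_of_le_one (by norm_num) (by norm_num) (by omega)
      have h4 : ‖X ^ n * X‖ ≤ ‖X‖ :=
        (norm_mul_le _ _).trans (by
          have := mul_le_mul_of_nonneg_right (hn n) (norm_nonneg X)
          linarith)
      exact mul_le_mul (h2.trans h3) h4 (norm_nonneg _) (by positivity)
    refine (tsum_of_norm_bounded ((hgeo.mul_right ‖X‖).hasSum) hb).trans ?_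
    rw [tsum_mul_right]
    have h5 : ∑' n : ℕ, (1 / 2 : ℝ) ^ (n + 1) = 1 := by
      simp only [pow_succ]
      rw [tsum_mul_right, tsum_geometric_two]
      norm_num
    rw [h5, one_mul]
  · have h1 := NormedSpace.exp_series_hasSum_exp' (𝕂 := ℂ) X
    have h2 : HasSum (fun n : ℕ => ((n + 2).factorial : ℂ)⁻¹ • X ^ (n + 2))
        (NormedSpace.exp X - (1 + X)) := by
      have h3 := (hasSum_nat_add_iff' 2).mpr h1
      simpa [Finset.sum_range_succ] using h3
    have h4 : HasSum (fun n : ℕ => ((n + 2).factorial : ℂ)⁻¹ • X ^ (n + 2)) (X * g * X) := by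
      have h5 := (hs.hasSum.mul_left X).mul_right X
      refine h5.congr_fun ?_
      intro n
      rw [mul_smul_comm, smul_mul_assoc, ← pow_succ', ← pow_succ]
    have h6 := h2.unique h4
    rw [← h6]
    abel

end expo

section near

variable {T : Type*} [NormedAddCommGroup T] [InnerProductSpace ℂ T]

/-- Second order expansion for skew operators. -/
theorem skew_phase {X g : T →L[ℂ] T} (hX : ∀ x y, inner ℂ (X x) y = -inner ℂ x (X y)) {ε : ℝ}
    (hε : ε ≤ 1 / 4) (hg : ‖g - (1 / 2 : ℂ) • (1 : T →L[ℂ] T)‖ ≤ ε) {s : T}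
    (hs : inner ℂ s (X s) = 0) :
    |(inner ℂ (s + X s + X (g (X s))) s).im| ≤
      4 * ε * (‖s‖ ^ 2 - (inner ℂ (s + X s + X (g (X s))) s).re) := by
  set e := g - (1 / 2 : ℂ) • (1 : T →L[ℂ] T) with he
  have h1 : g (X s) = (1 / 2 : ℂ) • X s + e (X s) := by
    rw [he]
    simp
  have h2 : inner ℂ (X s) s = 0 := by
    rw [hX, hs, neg_zero]
  have h3 : inner ℂ (s + X s + X (g (X s))) s =
      (‖s‖ ^ 2 : ℝ) - ((‖X s‖ ^ 2 / 2 : ℝ) : ℂ) - inner ℂ (e (X s)) (X s) := by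
    have h0 : (starRingEnd ℂ) (1 / 2 : ℂ) = 1 / 2 := by
      rw [map_div₀, map_one, Complex.conj_ofNat]
    rw [inner_add_left, inner_add_left, h2, hX, h1, inner_add_left, inner_smul_left, h0,
      inner_self_eq_norm_sq_to_K, inner_self_eq_norm_sq_to_K]
    push_cast
    simp only [Complex.coe_algebraMap]
    ring
  have h4 : ‖inner ℂ (e (X s)) (X s)‖ ≤ ε * ‖X s‖ ^ 2 := by
    refine (norm_inner_le_norm _ _).trans ?_
    have h5 : ‖e (X s)‖ ≤ ε * ‖X s‖ := (e.le_opNorm _).trans (by gcongr)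
    calc ‖e (X s)‖ * ‖X s‖ ≤ ε * ‖X s‖ * ‖X s‖ := by gcongr
      _ = ε * ‖X s‖ ^ 2 := by ring
  have h5 := Complex.abs_im_le_norm (inner ℂ (e (X s)) (X s))
  have h6 := Complex.abs_re_le_norm (inner ℂ (e (X s)) (X s))
  have hε0 : 0 ≤ ε := (norm_nonneg _).trans hg
  rw [h3]
  simp only [Complex.sub_im, Complex.sub_re, Complex.ofReal_im, Complex.ofReal_re]
  rw [abs_le] at h5 h6
  have h7 : ‖X s‖ ^ 2 / 4 ≤ ‖s‖ ^ 2 - (‖s‖ ^ 2 - ‖X s‖ ^ 2 / 2 - (inner ℂ (e (X s)) (X s)).re) := by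
    have h8 : ε * ‖X s‖ ^ 2 ≤ 1 / 4 * ‖X s‖ ^ 2 := by gcongr
    linarith [h6.1]
  have h9 : 4 * ε * (‖X s‖ ^ 2 / 4) ≤
      4 * ε * (‖s‖ ^ 2 - (‖s‖ ^ 2 - ‖X s‖ ^ 2 / 2 - (inner ℂ (e (X s)) (X s)).re)) := by gcongr
  rw [abs_le]
  constructor
  · linarith [h5.2]
  · linarith [h5.1]

theorem skew_lower {X g : T →L[ℂ] T} {ε : ℝ} (hε : ε ≤ 1 / 4) (hXε : ‖X‖ ≤ ε)
    (hg : ‖g - (1 / 2 : ℂ) • (1 : T →L[ℂ] T)‖ ≤ ε) {s : T} :
    ‖X (g (X s))‖ ≤ ε * ‖X s‖ ∧ ‖X s‖ ≤ 2 * ‖X s + X (g (X s))‖ := by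
  have hε0 : 0 ≤ ε := (norm_nonneg _).trans hg
  have h1 : ‖g (X s)‖ ≤ 1 * ‖X s‖ := by
    have h2 : g (X s) = (1 / 2 : ℂ) • X s + (g - (1 / 2 : ℂ) • (1 : T →L[ℂ] T)) (X s) := by simp
    rw [h2]
    refine (norm_add_le _ _).trans ?_
    rw [norm_smul]
    have h3 := (g - (1 / 2 : ℂ) • (1 : T →L[ℂ] T)).le_opNorm (X s)
    have h4 : ‖g - (1 / 2 : ℂ) • (1 : T →L[ℂ] T)‖ * ‖X s‖ ≤ 1 / 4 * ‖X s‖ := by
      gcongr
      linarith
    have h5 : ‖(1 / 2 : ℂ)‖ = 1 / 2 := by simp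
    rw [h5]
    linarith [norm_nonneg (X s)]
  have h2 : ‖X (g (X s))‖ ≤ ε * ‖X s‖ := by
    refine (X.le_opNorm _).trans ?_
    calc ‖X‖ * ‖g (X s)‖ ≤ ε * (1 * ‖X s‖) := by gcongr
      _ = ε * ‖X s‖ := by ring
  refine ⟨h2, ?_⟩
  have h3 : ‖X s‖ ≤ ‖X s + X (g (X s))‖ + ‖X (g (X s))‖ := by
    have := norm_sub_le (X s + X (g (X s))) (X (g (X s)))
    rwa [add_sub_cancel_right] at this
  have h4 : ε * ‖X s‖ ≤ 1 / 4 * ‖X s‖ := by gcongr
  linarith [norm_nonneg (X s)]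

end near

section act

variable {K : Type*} [Group K] [TopologicalSpace K] [IsTopologicalGroup K] [CompactSpace K]
  {T : Type*} [NormedAddCommGroup T] [InnerProductSpace ℂ T]

/-- A continuous unitary action. -/
structure Uni (U : K →* (T →L[ℂ] T)) : Prop where
  ip : ∀ k x y, inner ℂ (U k x) (U k y) = inner ℂ x y
  cont : Continuous U

/-- The tangent space `gs` of `s`. -/
structure Tan (U : K →* (T →L[ℂ] T)) (s : T) (gs : Submodule ℂ T) : Prop where
  ne : s ≠ 0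
  exp : ∀ ε : ℝ, 0 < ε → ∀ᶠ k in 𝓝 (1 : K), ∃ X g : T →L[ℂ] T,
    (∀ x y, inner ℂ (X x) y = -inner ℂ x (X y)) ∧ ‖X‖ ≤ ε ∧
    ‖g - (1 / 2 : ℂ) • (1 : T →L[ℂ] T)‖ ≤ ε ∧ U k = 1 + X + X * g * X ∧ X s ∈ gs

/-- The normalised matrix coefficient. -/
noncomputable def phi (U : K →* (T →L[ℂ] T)) (s : T) (k : K) : ℂ :=
  inner ℂ (U k s) s / ((‖s‖ ^ 2 : ℝ) : ℂ)

variable {U : K →* (T →L[ℂ] T)} (hU : Uni U)

include hU

theorem Uni.norm (k : K) (x : T) : ‖U k x‖ = ‖x‖ := by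
  have h := hU.ip k x x
  rw [inner_self_eq_norm_sq_to_K, inner_self_eq_norm_sq_to_K] at h
  have h2 : ‖U k x‖ ^ 2 = ‖x‖ ^ 2 := by exact_mod_cast h
  exact (pow_left_inj₀ (norm_nonneg _) (norm_nonneg _) two_ne_zero).mp h2

theorem Uni.inv_apply (k : K) (x : T) : U k⁻¹ (U k x) = x := by
  rw [← mul_apply_eq_comp, ← map_mul, inv_mul_cancel, map_one]
  rfl

theorem Uni.apply_inv (k : K) (x : T) : U k (U k⁻¹ x) = x := by
  rw [← mul_apply_eq_comp, ← map_mul, mul_inv_cancel, map_one]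
  rfl

theorem Uni.adj (k : K) (x y : T) : inner ℂ (U k x) y = inner ℂ x (U k⁻¹ y) := by
  rw [← hU.ip k x (U k⁻¹ y), hU.apply_inv]

theorem Uni.cont_apply (x : T) : Continuous fun k => U k x := by
  exact (ContinuousLinearMap.apply ℂ T x).continuous.comp hU.cont

theorem phi_cont (s : T) : Continuous (phi U s) := by
  unfold phi
  exact ((hU.cont_apply s).inner continuous_const).div_const _

/-- `1 - Re φ` is half the square of the relative displacement. -/
theorem one_sub_re {s : T} (hs : s ≠ 0) (k : K) :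
    1 - (phi U s k).re = ‖U k s - s‖ ^ 2 / (2 * ‖s‖ ^ 2) := by
  have hs0 : 0 < ‖s‖ ^ 2 := by positivity
  have h1 : ‖U k s - s‖ ^ 2 = ‖U k s‖ ^ 2 - 2 * (inner ℂ (U k s) s).re + ‖s‖ ^ 2 := by
    have := @norm_sub_sq ℂ T _ _ _ (U k s) s
    simpa using this
  rw [hU.norm] at h1
  unfold phi
  rw [Complex.div_ofReal_re, h1]
  field_simp
  ring

theorem phi_norm {s : T} (hs : s ≠ 0) (k : K) : ‖phi U s k‖ ≤ 1 := by
  have hs0 : 0 < ‖s‖ ^ 2 := by positivity
  unfold phi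
  rw [norm_div, Complex.norm_real, Real.norm_eq_abs, abs_of_pos hs0, div_le_one hs0]
  refine (norm_inner_le_norm _ _).trans ?_
  rw [hU.norm, sq]

theorem phi_eq_one {s : T} (hs : s ≠ 0) {k : K} (h : phi U s k = 1) : U k s = s := by
  have h1 := one_sub_re hU hs k
  rw [h, Complex.one_re, sub_self] at h1
  have hs0 : 0 < 2 * ‖s‖ ^ 2 := by positivity
  have h2 : ‖U k s - s‖ ^ 2 = 0 := by
    rcases div_eq_zero_iff.mp h1.symm with h3 | h3
    · exact h3
    · exact absurd h3 hs0.ne'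
  rw [← sub_eq_zero, ← norm_eq_zero]
  exact pow_eq_zero_iff two_ne_zero |>.mp h2

theorem phi_of_fix {s : T} (hs : s ≠ 0) {k : K} (h : U k s = s) : phi U s k = 1 := by
  have hs0 : 0 < ‖s‖ ^ 2 := by positivity
  unfold phi
  rw [h, inner_self_eq_norm_sq_to_K]
  push_cast
  have : (‖s‖ : ℂ) ^ 2 ≠ 0 := by exact_mod_cast hs0.ne'
  exact div_self this

/-- From a neighbourhood of `1` to a neighbourhood of the stabilizer. -/
theorem glob {s : T} (hs : s ≠ 0) {P : K → Prop} (h1 : ∀ᶠ k in 𝓝 (1 : K), P k)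
    (h2 : ∀ k k0, U k0 s = s → P k → P (k * k0)) :
    ∃ r : ℝ, 0 < r ∧ ∀ k, 1 - (phi U s k).re < r → P k := by
  obtain ⟨N, hN, hNo, hN1⟩ := eventually_nhds_iff.mp h1
  set W : Set K := ⋃ k0 ∈ {k0 : K | U k0 s = s}, (fun k => k * k0) '' N with hW
  have hWo : IsOpen W := isOpen_biUnion fun k0 _ => (isOpenMap_mul_right k0) N hNo
  have hWc : IsCompact Wᶜ := hWo.isClosed_compl.isCompact
  have hWP : ∀ k ∈ W, P k := by
    intro k hk
    rw [hW] at hk
    simp only [mem_iUnion, mem_image, mem_ofPred_eq] at hk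
    obtain ⟨k0, hk0, k1, hk1, rfl⟩ := hk
    exact h2 k1 k0 hk0 (hN k1 hk1)
  have hfix : ∀ k, U k s = s → k ∈ W := by
    intro k hk
    rw [hW]
    simp only [mem_iUnion, mem_image, mem_ofPred_eq]
    exact ⟨k, hk, 1, hN1, one_mul k⟩
  by_cases hne : Wᶜ.Nonempty
  · obtain ⟨k0, hk0, hmin⟩ := hWc.exists_isMinOn hne (f := fun k => 1 - (phi U s k).re)
      (continuous_const.sub (Complex.continuous_re.comp (phi_cont hU s))).continuousOn
    refine ⟨1 - (phi U s k0).re, ?_, ?_⟩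
    · rw [one_sub_re hU hs]
      have h3 : U k0 s - s ≠ 0 := by
        intro h4
        exact hk0 (hfix k0 (sub_eq_zero.mp h4))
      positivity
    · intro k hk
      by_contra hc
      have h3 : k ∈ Wᶜ := fun h4 => hc (hWP k h4)
      have h4 : 1 - (phi U s k0).re ≤ 1 - (phi U s k).re := hmin h3
      linarith
  · refine ⟨1, one_pos, fun k _ => hWP k ?_⟩
    by_contra hc
    exact hne ⟨k, hc⟩

/-- The phase condition. -/
theorem phase {s : T} {gs : Submodule ℂ T} (hT : Tan U s gs)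
    (orth : ∀ x ∈ gs, inner ℂ s x = 0) (ε : ℝ) (hε : 0 < ε) :
    ∃ r : ℝ, 0 < r ∧ ∀ k, 1 - (phi U s k).re < r →
      |(phi U s k).im| ≤ ε * (1 - (phi U s k).re) := by
  have hs0 : 0 < ‖s‖ ^ 2 := by
    have := hT.ne
    positivity
  refine glob hU hT.ne ?_ ?_
  · filter_upwards [hT.exp (min (1 / 4) (ε / 4)) (by positivity)] with k hk
    obtain ⟨X, g, h1, h2, h3, h4, h5⟩ := hk
    have h6 := skew_phase h1 (min_le_left _ _) h3 (orth _ h5)
    have h7 : s + X s + X (g (X s)) = U k s := by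
      rw [h4]
      simp
    rw [h7] at h6
    have h8 : 0 ≤ ‖s‖ ^ 2 - (inner ℂ (U k s) s).re := by
      have h9 := one_sub_re hU hT.ne k
      have h10 : 0 ≤ 1 - (phi U s k).re := by
        rw [h9]
        positivity
      unfold phi at h10
      rw [Complex.div_ofReal_re, sub_nonneg, div_le_one hs0] at h10
      linarith
    have h9 : |(inner ℂ (U k s) s).im| ≤ ε * (‖s‖ ^ 2 - (inner ℂ (U k s) s).re) := by
      refine h6.trans ?_
      have h10 : 4 * min (1 / 4) (ε / 4) ≤ ε := by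
        have := min_le_right (1 / 4) (ε / 4)
        linarith
      exact mul_le_mul_of_nonneg_right h10 h8
    unfold phi
    rw [Complex.div_ofReal_re, Complex.div_ofReal_im, abs_div, abs_of_pos hs0, div_le_iff₀ hs0]
    have hs1 := hs0.ne'
    calc |(inner ℂ (U k s) s).im| ≤ ε * (‖s‖ ^ 2 - (inner ℂ (U k s) s).re) := h9
      _ = ε * (1 - (inner ℂ (U k s) s).re / ‖s‖ ^ 2) * ‖s‖ ^ 2 := by
          rw [mul_assoc, sub_mul, one_mul, div_mul_cancel₀ _ hs1]
  · intro k k0 hk0 h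
    have h1 : phi U s (k * k0) = phi U s k := by
      unfold phi
      rw [map_mul, mul_apply_eq_comp, hk0]
    rw [h1]
    exact h

/-- The displacement is of first order along the tangent space. -/
theorem normal {s : T} {gs : Submodule ℂ T} (hT : Tan U s gs) (ε : ℝ) (hε : 0 < ε) :
    ∃ r : ℝ, 0 < r ∧ ∀ k, 1 - (phi U s k).re < r → ∀ ν : T, (∀ x ∈ gs, inner ℂ x ν = 0) →
      ‖inner ℂ (U k s - s) ν‖ ≤ ε * ‖ν‖ * ‖U k s - s‖ := by
  refine glob hU hT.ne ?_ ?_
  · have h0 : 0 < min (1 / 4) (ε / 2) := by positivity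
    filter_upwards [hT.exp _ h0] with k hk
    obtain ⟨X, g, h2, h3, h4, h5, h6⟩ := hk
    obtain ⟨h7, h8⟩ := skew_lower (s := s) (min_le_left _ _) h3 h4
    have h9 : U k s - s = X s + X (g (X s)) := by
      rw [h5]
      simp
      abel
    intro ν hν
    rw [h9, inner_add_left, hν _ h6, zero_add]
    calc ‖inner ℂ (X (g (X s))) ν‖ ≤ ‖X (g (X s))‖ * ‖ν‖ := norm_inner_le_norm _ _
      _ ≤ (min (1 / 4) (ε / 2) * ‖X s‖) * ‖ν‖ := by gcongr
      _ ≤ (ε / 2 * (2 * ‖X s + X (g (X s))‖)) * ‖ν‖ := by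
          gcongr
          exact min_le_right _ _
      _ = ε * ‖ν‖ * ‖X s + X (g (X s))‖ := by ring
  · intro k k0 hk0 h
    have h2 : U (k * k0) s = U k s := by
      rw [map_mul, mul_apply_eq_comp, hk0]
    rw [h2]
    exact h

/-- The displacement is of first order along the tangent space. -/
theorem displace {s : T} {gs : Submodule ℂ T} (hT : Tan U s gs) (Pi : T →L[ℂ] T)
    (hPi : ∀ x ∈ gs, Pi x = 0) (hPc : ∀ k, U k s = s → ∀ x, Pi (U k x) = U k (Pi x)) (ε : ℝ)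
    (hε : 0 < ε) :
    ∃ r : ℝ, 0 < r ∧ ∀ k, 1 - (phi U s k).re < r →
      ‖Pi (U k⁻¹ s - s)‖ ≤ ε * ‖U k s - s‖ := by
  refine glob hU hT.ne ?_ ?_
  · have h0 : 0 < min (1 / 4) (ε / (2 * (‖Pi‖ + 1))) := by positivity
    have h1 : Tendsto (fun k : K => k⁻¹) (𝓝 1) (𝓝 1) := by
      have := (continuous_inv (G := K)).tendsto 1
      rwa [inv_one] at this
    filter_upwards [h1.eventually (hT.exp _ h0)] with k hk
    obtain ⟨X, g, h2, h3, h4, h5, h6⟩ := hk
    obtain ⟨h7, h8⟩ := skew_lower (s := s) (min_le_left _ _) h3 h4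
    have h9 : U k⁻¹ s - s = X s + X (g (X s)) := by
      rw [h5]
      simp
      abel
    have h10 : ‖U k s - s‖ = ‖U k⁻¹ s - s‖ := by
      rw [← hU.norm k (U k⁻¹ s - s), map_sub, hU.apply_inv, norm_sub_rev]
    rw [h10, h9, map_add, hPi _ h6, zero_add]
    have h11 : 0 < ‖Pi‖ + 1 := by positivity
    calc ‖Pi (X (g (X s)))‖ ≤ ‖Pi‖ * ‖X (g (X s))‖ := Pi.le_opNorm _
      _ ≤ (‖Pi‖ + 1) * (min (1 / 4) (ε / (2 * (‖Pi‖ + 1))) * ‖X s‖) := by
          gcongr
          linarith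
      _ ≤ (‖Pi‖ + 1) * (ε / (2 * (‖Pi‖ + 1)) * (2 * ‖X s + X (g (X s))‖)) := by
          gcongr
          exact min_le_right _ _
      _ = ε * ‖X s + X (g (X s))‖ := by
          field_simp
  · intro k k0 hk0 h
    have hk0' : U k0⁻¹ s = s := by
      conv_lhs => rw [← hk0]
      exact hU.inv_apply k0 s
    have h1 : U (k * k0)⁻¹ s - s = U k0⁻¹ (U k⁻¹ s - s) := by
      rw [mul_inv_rev, map_mul, mul_apply_eq_comp, map_sub, hk0']
    have h2 : U (k * k0) s = U k s := by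
      rw [map_mul, mul_apply_eq_comp, hk0]
    rw [h1, hPc _ hk0', hU.norm, h2]
    exact h

end act

section vol

variable {K : Type*} [Group K] [TopologicalSpace K] [IsTopologicalGroup K] [CompactSpace K]
  [MeasurableSpace K] [BorelSpace K] {μ : Measure K} [IsProbabilityMeasure μ]
  [μ.IsMulLeftInvariant]

/-- The volume condition from bounded coordinates. -/
theorem volume {ι : Type*} [Fintype ι] (c : K → ι → ℝ) (hc : ∀ k i, |c k i| ≤ 1)
    (D : K → ℝ) (C : ℝ)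
    (hD : ∀ k k' : K, ∀ δ : ℝ, 0 < δ → δ ≤ 1 → (∀ i, |c k i - c k' i| ≤ δ) →
      D (k'⁻¹ * k) ≤ C * δ) :
    ∃ c0 : ℝ, 0 < c0 ∧ ∀ r : ℝ, 0 < r → r ≤ 1 →
      c0 * r ^ Fintype.card ι ≤ μ.real {k | D k < r} := by
  classical
  set C' := |C| + 1 with hC'
  have hC0 : 0 < C' := by positivity
  have hC1 : 1 ≤ C' := by rw [hC']; linarith [abs_nonneg C]
  refine ⟨((10 * C')⁻¹) ^ Fintype.card ι, by positivity, ?_⟩
  intro r hr hr1
  set δ := r / (2 * C') with hδ
  have hδ0 : 0 < δ := by positivity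
  have hδ1 : δ ≤ 1 := by
    rw [hδ, div_le_one (by positivity)]
    linarith
  set M : ℤ := ⌈1 / δ⌉ with hM
  set b : K → ι → ℤ := fun k i => ⌊c k i / δ⌋ with hb
  set S : Finset (ι → ℤ) := Fintype.piFinset fun _ => Finset.Icc (-M) M with hS
  have hbS : ∀ k, b k ∈ S := by
    intro k
    rw [hS, Fintype.mem_piFinset]
    intro i
    have h1 := abs_le.mp (hc k i)
    have h2 : c k i / δ ≤ 1 / δ := by gcongr; exact h1.2
    have h3 : -(1 / δ) ≤ c k i / δ := by
      rw [neg_div', ]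
      gcongr
      exact h1.1
    rw [Finset.mem_Icc]
    constructor
    · show -M ≤ ⌊c k i / δ⌋
      rw [Int.le_floor]
      push_cast
      have h4 : 1 / δ ≤ (M : ℝ) := Int.le_ceil _
      linarith
    · show ⌊c k i / δ⌋ ≤ M
      have h4 : (⌊c k i / δ⌋ : ℝ) ≤ c k i / δ := Int.floor_le _
      have h5 : 1 / δ ≤ (M : ℝ) := Int.le_ceil _
      exact_mod_cast h4.trans (h2.trans h5)
  have hfib : ∀ v ∈ S, μ.real {k | b k = v} ≤ μ.real {k | D k < r} := by
    intro v _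
    by_cases hne : ∃ k', b k' = v
    · obtain ⟨k', hk'⟩ := hne
      have h1 : {k | b k = v} ⊆ (fun k => k'⁻¹ * k) ⁻¹' {k | D k < r} := by
        intro k hk
        have h2 : ∀ i, |c k i - c k' i| ≤ δ := by
          intro i
          have h3 : ⌊c k i / δ⌋ = ⌊c k' i / δ⌋ := by
            have h4 : b k i = b k' i := by rw [hk', show b k = v from hk]
            exact h4
          have h4 := Int.abs_sub_lt_one_of_floor_eq_floor h3
          rw [← sub_div, abs_div, abs_of_pos hδ0, div_lt_one hδ0] at h4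
          exact h4.le
        have h3 := hD k k' δ hδ0 hδ1 h2
        show D (k'⁻¹ * k) < r
        refine h3.trans_lt ?_
        calc C * δ ≤ C' * δ := by
              gcongr
              rw [hC']
              linarith [le_abs_self C]
          _ = r / 2 := by
              rw [hδ]
              field_simp
          _ < r := by linarith
      calc μ.real {k | b k = v} ≤ μ.real ((fun k => k'⁻¹ * k) ⁻¹' {k | D k < r}) :=
            measureReal_mono h1
        _ = μ.real {k | D k < r} := by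
            rw [measureReal_def, measureReal_def, measure_preimage_mul]
    · have h1 : {k | b k = v} = ∅ := by
        ext k
        simp only [mem_ofPred_eq, mem_empty_iff_false, iff_false]
        exact fun h => hne ⟨k, h⟩
      rw [h1, measureReal_empty]
      exact measureReal_nonneg
  have htot : 1 ≤ ∑ v ∈ S, μ.real {k | b k = v} := by
    have h1 : (univ : Set K) = ⋃ v ∈ S, {k | b k = v} := by
      ext k
      simp only [mem_univ, mem_iUnion, mem_ofPred_eq, exists_prop, true_iff]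
      exact ⟨b k, hbS k, rfl⟩
    calc (1 : ℝ) = μ.real univ := probReal_univ.symm
      _ = μ.real (⋃ v ∈ S, {k | b k = v}) := by rw [← h1]
      _ ≤ _ := measureReal_biUnion_finset_le S _
  have hcard : (S.card : ℝ) ≤ (10 * C' / r) ^ Fintype.card ι := by
    rw [hS, Fintype.card_piFinset]
    simp only [Int.card_Icc, Finset.prod_const, Finset.card_univ]
    push_cast
    gcongr
    have h1 : ((M : ℝ)) < 1 / δ + 1 := Int.ceil_lt_add_one _
    have h2 : 0 ≤ M + 1 - -M := by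
      have h3 : (0 : ℝ) < M := lt_of_lt_of_le (by positivity) (Int.le_ceil (1 / δ))
      have h4 : 0 < M := by exact_mod_cast h3
      omega
    have h3 : (((M + 1 - -M).toNat : ℕ) : ℝ) = 2 * M + 1 := by
      have h4 : (((M + 1 - -M).toNat : ℤ) : ℝ) = ((M + 1 - -M : ℤ) : ℝ) := by
        rw [Int.toNat_of_nonneg h2]
      push_cast at h4 ⊢
      rw [h4]
      ring
    rw [h3]
    have h4 : 1 / δ = 2 * C' / r := by
      rw [hδ, one_div_div]
    have h5 : 1 ≤ C' / r := by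
      rw [le_div_iff₀ hr]
      linarith
    calc 2 * (M : ℝ) + 1 ≤ 2 * (1 / δ + 1) + 1 := by linarith
      _ = 4 * (C' / r) + 3 := by rw [h4]; ring
      _ ≤ 10 * (C' / r) := by linarith
      _ = 10 * C' / r := by ring
  have h1 : 1 ≤ (10 * C' / r) ^ Fintype.card ι * μ.real {k | D k < r} := by
    calc (1 : ℝ) ≤ ∑ v ∈ S, μ.real {k | b k = v} := htot
      _ ≤ ∑ v ∈ S, μ.real {k | D k < r} := Finset.sum_le_sum hfib
      _ = S.card * μ.real {k | D k < r} := by simp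
      _ ≤ _ := by gcongr
  have h2 : (0 : ℝ) < (10 * C' / r) ^ Fintype.card ι := by positivity
  calc ((10 * C')⁻¹) ^ Fintype.card ι * r ^ Fintype.card ι =
        ((10 * C' / r) ^ Fintype.card ι)⁻¹ := by
        rw [← mul_pow, ← inv_pow, inv_div, div_eq_mul_inv, mul_comm]
    _ ≤ μ.real {k | D k < r} := by
        rw [inv_le_iff_one_le_mul₀ h2, mul_comm]
        exact h1

end vol

end RLap
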