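import Mathlib

/-!
# A Laplace type lemma

`K` is a compact space with a probability measure, `φ : K → ℂ` is continuous with values in the
closed unit disc, its imaginary part is of smaller order than `1 - Re φ` near the set `φ = 1`, and
the sets `1 - Re φ < r` have measure at least `c * r ^ m`.  For an exponent `a > m` the kernels
`(1 - z φ) ^ (-a)` concentrate on the set `φ = 1` as `z → 1`.
-/

set_option autoImplicit false
set_option linter.unusedSectionVars false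

namespace RLap

open MeasureTheory Filter Topology Set

section

variable {K : Type*} [TopologicalSpace K] [CompactSpace K] [MeasurableSpace K] [BorelSpace K]

/-- The conditions on `φ`. -/
structure Peak (μ : Measure K) (φ : K → ℂ) (m : ℕ) : Prop where
  cont : Continuous φ
  le : ∀ k, ‖φ k‖ ≤ 1
  im : ∀ ε : ℝ, 0 < ε → ∃ r : ℝ, 0 < r ∧ ∀ k, 1 - (φ k).re < r →
    |(φ k).im| ≤ ε * (1 - (φ k).re)
  vol : ∃ c : ℝ, 0 < c ∧ ∀ r : ℝ, 0 < r → r ≤ 1 → c * r ^ m ≤ μ.real {k | 1 - (φ k).re < r}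

/-- The kernel. -/
noncomputable def kern (a : ℕ) (φ : K → ℂ) (z : ℝ) (k : K) : ℂ := ((1 - z * φ k) ^ a)⁻¹

variable {μ : Measure K} [IsProbabilityMeasure μ] {φ : K → ℂ} {m : ℕ}

theorem norm_pow_sub_one_le (x : ℂ) (n : ℕ) : ‖(1 + x) ^ n - 1‖ ≤ (1 + ‖x‖) ^ n - 1 := by
  induction n with
  | zero => simp
  | succ n ih =>
    have h1 : (1 + x) ^ (n + 1) - 1 = ((1 + x) ^ n - 1) * (1 + x) + x := by ring
    rw [h1]
    have h2 : ‖1 + x‖ ≤ 1 + ‖x‖ := (norm_add_le _ _).trans (by simp)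
    have h3 : 0 ≤ (1 + ‖x‖) ^ n - 1 := (norm_nonneg _).trans ih
    calc ‖((1 + x) ^ n - 1) * (1 + x) + x‖ ≤ ‖(1 + x) ^ n - 1‖ * ‖1 + x‖ + ‖x‖ := by
          refine (norm_add_le _ _).trans ?_
          rw [norm_mul]
      _ ≤ ((1 + ‖x‖) ^ n - 1) * (1 + ‖x‖) + ‖x‖ := by gcongr
      _ = (1 + ‖x‖) ^ (n + 1) - 1 := by ring

/-- Numbers with small argument: the real part of the inverse of the power is at least `3 / 5` of
the norm. -/
theorem exists_arg (a : ℕ) : ∃ ε : ℝ, 0 < ε ∧ ε ≤ 1 ∧ ∀ q : ℂ, 0 < q.re → |q.im| ≤ ε * q.re →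
    3 / 5 * ‖(q ^ a)⁻¹‖ ≤ ((q ^ a)⁻¹).re := by
  have h1 : Tendsto (fun x : ℝ => (1 + x) ^ a) (𝓝 0) (𝓝 ((1 + 0) ^ a)) :=
    (Continuous.tendsto (by fun_prop) 0)
  have h2 : ∀ᶠ x : ℝ in 𝓝 0, (1 + x) ^ a < 5 / 4 := by
    apply h1.eventually_lt_const
    simp
    norm_num
  obtain ⟨δ, hδ, hδ'⟩ := Metric.eventually_nhds_iff.mp h2
  refine ⟨min (δ / 2) 1, by positivity, min_le_right _ _, ?_⟩
  intro q hq hq'
  set x : ℂ := q / q.re - 1 with hx
  have hq0 : (q.re : ℂ) ≠ 0 := by exact_mod_cast hq.ne'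
  have hqx : q = q.re * (1 + x) := by
    rw [hx]
    field_simp
    ring
  have hxn : ‖x‖ ≤ min (δ / 2) 1 := by
    have h3 : x = Complex.I * ((q.im / q.re : ℝ) : ℂ) := by
      rw [hx]
      rw [div_sub_one hq0]
      rw [Complex.ofReal_div, ← mul_div_assoc]
      congr 1
      apply Complex.ext <;> simp
    rw [h3, norm_mul, Complex.norm_I, one_mul, Complex.norm_real, Real.norm_eq_abs, abs_div,
      abs_of_pos hq, div_le_iff₀ hq]
    exact hq'
  have h4 : (1 + ‖x‖) ^ a < 5 / 4 := by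
    apply hδ'
    rw [Real.dist_eq, sub_zero, abs_of_nonneg (norm_nonneg _)]
    have := min_le_left (δ / 2) 1
    linarith
  set w : ℂ := (1 + x) ^ a with hw
  have h5 : ‖w - 1‖ ≤ 1 / 4 := by
    have := norm_pow_sub_one_le x a
    rw [← hw] at this
    linarith
  have h6 : ‖w‖ ≤ 5 / 4 := by
    calc ‖w‖ = ‖(w - 1) + 1‖ := by ring_nf
      _ ≤ ‖w - 1‖ + ‖(1 : ℂ)‖ := norm_add_le _ _
      _ ≤ 5 / 4 := by rw [norm_one]; linarith
  have h7 : 3 / 4 ≤ w.re := by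
    have h8 : |(w - 1).re| ≤ 1 / 4 := (Complex.abs_re_le_norm _).trans h5
    rw [abs_le] at h8
    simp only [Complex.sub_re, Complex.one_re] at h8
    linarith [h8.1]
  have hw0 : 0 < ‖w‖ := by
    have := Complex.re_le_norm w
    linarith
  have h9 : (q ^ a)⁻¹ = (((q.re ^ a)⁻¹ : ℝ) : ℂ) * w⁻¹ := by
    conv_lhs => rw [hqx]
    rw [mul_pow, mul_inv, ← hw]
    push_cast
    rfl
  have h10 : 0 < (q.re ^ a)⁻¹ := by positivity
  rw [h9, Complex.re_ofReal_mul, norm_mul, Complex.norm_real, Real.norm_eq_abs, abs_of_pos h10,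
    norm_inv, Complex.inv_re, Complex.normSq_eq_norm_sq]
  have h11 : 3 / 5 * ‖w‖⁻¹ ≤ w.re / ‖w‖ ^ 2 := by
    rw [div_eq_mul_inv w.re, sq, mul_inv, ← mul_assoc]
    have h12 : 3 / 5 ≤ w.re * ‖w‖⁻¹ := by
      rw [← div_eq_mul_inv, le_div_iff₀ hw0]
      linarith
    exact mul_le_mul_of_nonneg_right h12 (by positivity)
  calc 3 / 5 * ((q.re ^ a)⁻¹ * ‖w‖⁻¹) = (q.re ^ a)⁻¹ * (3 / 5 * ‖w‖⁻¹) := by ring
    _ ≤ (q.re ^ a)⁻¹ * (w.re / ‖w‖ ^ 2) := mul_le_mul_of_nonneg_left h11 h10.le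

section peak

variable (h : Peak μ φ m)

include h

theorem re_le (k : K) : (φ k).re ≤ 1 := (Complex.re_le_norm _).trans (h.le k)

theorem q_re (z : ℝ) (k : K) : (1 - z * φ k).re = (1 - z) + z * (1 - (φ k).re) := by
  simp only [Complex.sub_re, Complex.one_re, Complex.re_ofReal_mul]
  ring

theorem q_im (z : ℝ) (k : K) : (1 - z * φ k).im = -(z * (φ k).im) := by
  simp

theorem q_pos {z : ℝ} (hz : 0 ≤ z) (hz1 : z < 1) (k : K) : 0 < (1 - z * φ k).re := by
  rw [q_re h]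
  have := re_le h k
  have h2 : 0 ≤ z * (1 - (φ k).re) := mul_nonneg hz (by linarith)
  linarith

theorem q_ne {z : ℝ} (hz : 0 ≤ z) (hz1 : z < 1) (k : K) : (1 - z * φ k) ≠ 0 := by
  intro h0
  have := q_pos h hz hz1 k
  rw [h0] at this
  simp at this

theorem kern_cont (a : ℕ) {z : ℝ} (hz : 0 ≤ z) (hz1 : z < 1) : Continuous (kern a φ z) := by
  unfold kern
  refine Continuous.inv₀ ?_ fun k => pow_ne_zero _ (q_ne h hz hz1 k)
  exact (continuous_const.sub (continuous_const.mul h.cont)).pow a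

theorem kern_int (a : ℕ) {z : ℝ} (hz : 0 ≤ z) (hz1 : z < 1) : Integrable (kern a φ z) μ :=
  (kern_cont h a hz hz1).integrable_of_hasCompactSupport
    (HasCompactSupport.of_compactSpace _)

/-- The kernel is bounded away from the peak. -/
theorem kern_far (a : ℕ) {z r : ℝ} (hz : 1 / 2 ≤ z) (hz1 : z < 1) (hr : 0 < r) {k : K}
    (hk : r ≤ 1 - (φ k).re) : ‖kern a φ z k‖ ≤ (2 / r) ^ a := by
  unfold kern
  rw [norm_inv, norm_pow, ← inv_pow]
  refine pow_le_pow_left₀ (by positivity) ?_ a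
  rw [inv_le_comm₀ ?_ (by positivity)]
  · refine le_trans ?_ (Complex.re_le_norm _)
    rw [q_re h, inv_div]
    nlinarith
  · rw [norm_pos_iff]
    exact q_ne h (by linarith) hz1 k

/-- The real part of the kernel near the peak. -/
theorem exists_near (a : ℕ) : ∃ r : ℝ, 0 < r ∧ ∀ z : ℝ, 0 ≤ z → z < 1 → ∀ k : K,
    1 - (φ k).re < r → 3 / 5 * ‖kern a φ z k‖ ≤ (kern a φ z k).re ∧
      ‖1 - z * φ k‖ ≤ 2 * ((1 - z) + (1 - (φ k).re)) := by
  obtain ⟨ε, hε, hε1, hq⟩ := exists_arg a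
  obtain ⟨r, hr, hr'⟩ := h.im ε hε
  refine ⟨r, hr, ?_⟩
  intro z hz hz1 k hk
  have h1 := hr' k hk
  have h2 : |(1 - z * φ k).im| ≤ ε * (1 - z * φ k).re := by
    rw [q_im h, q_re h, abs_neg, abs_mul, abs_of_nonneg hz]
    have h3 : z * |(φ k).im| ≤ z * (ε * (1 - (φ k).re)) := mul_le_mul_of_nonneg_left h1 hz
    have h4 : 0 ≤ ε * (1 - z) := mul_nonneg hε.le (by linarith)
    nlinarith
  have h0 := q_pos h hz hz1 k
  refine ⟨hq _ h0 h2, ?_⟩
  refine (Complex.norm_le_abs_re_add_abs_im _).trans ?_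
  rw [abs_of_pos h0]
  have h5 : |(1 - z * φ k).im| ≤ (1 - z * φ k).re :=
    h2.trans (mul_le_of_le_one_left h0.le hε1)
  have h6 : (1 - z * φ k).re ≤ (1 - z) + (1 - (φ k).re) := by
    rw [q_re h]
    have := re_le h k
    nlinarith
  linarith

theorem near_meas (r : ℝ) : MeasurableSet {k | 1 - (φ k).re < r} :=
  (isOpen_lt (continuous_const.sub (Complex.continuous_re.comp h.cont))
    continuous_const).measurableSet

omit h in
theorem ev_half : ∀ᶠ z : ℝ in 𝓝[<] 1, 1 / 2 ≤ z ∧ z < 1 := by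
  filter_upwards [self_mem_nhdsWithin, mem_nhdsWithin_of_mem_nhds
    (lt_mem_nhds (show (1 / 2 : ℝ) < 1 by norm_num))] with z h1 h2
  exact ⟨h2.le, h1⟩

/-- Comparison of the integral of the norm with the integral. -/
theorem norm_le_main (a : ℕ) : ∃ C : ℝ, 0 ≤ C ∧ ∀ z : ℝ, 1 / 2 ≤ z → z < 1 →
    ∫ k, ‖kern a φ z k‖ ∂μ ≤ 5 / 3 * ‖∫ k, kern a φ z k ∂μ‖ + C ∧
    ∃ r : ℝ, 0 < r ∧ ∀ z' : ℝ, 1 / 2 ≤ z' → z' < 1 → ∀ k : K, 1 - (φ k).re < r →
      ‖1 - z' * φ k‖ ≤ 2 * ((1 - z') + (1 - (φ k).re)) := by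
  obtain ⟨r, hr, hn⟩ := exists_near h a
  refine ⟨3 * (2 / r) ^ a, by positivity, ?_⟩
  intro z hz hz1
  refine ⟨?_, r, hr, fun z' hz' hz1' k hk => (hn z' (by linarith) hz1' k hk).2⟩
  have hi := kern_int h a (by linarith : (0 : ℝ) ≤ z) hz1 (μ := μ)
  have hm := near_meas h r
  set N := {k | 1 - (φ k).re < r} with hN
  have h1 : ∫ k, ‖kern a φ z k‖ ∂μ = (∫ k in N, ‖kern a φ z k‖ ∂μ) + ∫ k in Nᶜ, ‖kern a φ z k‖ ∂μ :=
    (integral_add_compl hm hi.norm).symm
  have h2 : ∫ k, kern a φ z k ∂μ = (∫ k in N, kern a φ z k ∂μ) + ∫ k in Nᶜ, kern a φ z k ∂μ :=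
    (integral_add_compl hm hi).symm
  have hfar : ∀ k ∈ Nᶜ, ‖kern a φ z k‖ ≤ (2 / r) ^ a := by
    intro k hk
    exact kern_far h a hz hz1 hr (not_lt.mp hk)
  have h3 : ∫ k in Nᶜ, ‖kern a φ z k‖ ∂μ ≤ (2 / r) ^ a := by
    calc ∫ k in Nᶜ, ‖kern a φ z k‖ ∂μ ≤ ∫ k in Nᶜ, (2 / r) ^ a ∂μ :=
          setIntegral_mono_on hi.norm.integrableOn (integrable_const _) hm.compl hfar
      _ = μ.real Nᶜ * (2 / r) ^ a := by simp
      _ ≤ 1 * (2 / r) ^ a := by
          gcongr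
          exact measureReal_le_one
      _ = (2 / r) ^ a := one_mul _
  have h4 : ‖∫ k in Nᶜ, kern a φ z k ∂μ‖ ≤ (2 / r) ^ a :=
    (norm_integral_le_integral_norm _).trans h3
  have h5 : 3 / 5 * ∫ k in N, ‖kern a φ z k‖ ∂μ ≤ (∫ k in N, kern a φ z k ∂μ).re := by
    rw [← integral_const_mul]
    have h6 : (∫ k in N, kern a φ z k ∂μ).re = ∫ k in N, (kern a φ z k).re ∂μ := by
      have := integral_re (𝕜 := ℂ) (hi.integrableOn (s := N))
      simpa using this.symm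
    rw [h6]
    refine setIntegral_mono_on (hi.norm.const_mul _).integrableOn hi.re.integrableOn hm ?_
    intro k hk
    exact (hn z (by linarith) hz1 k hk).1
  have h7 : (∫ k in N, kern a φ z k ∂μ).re ≤ ‖∫ k, kern a φ z k ∂μ‖ + (2 / r) ^ a := by
    refine (Complex.re_le_norm _).trans ?_
    have h8 : (∫ k in N, kern a φ z k ∂μ) = (∫ k, kern a φ z k ∂μ) - ∫ k in Nᶜ, kern a φ z k ∂μ := by
      rw [h2]
      ring
    rw [h8]
    exact (norm_sub_le _ _).trans (by linarith)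
  rw [h1]
  have h9 : ∫ k in N, ‖kern a φ z k‖ ∂μ ≤ 5 / 3 * (‖∫ k, kern a φ z k ∂μ‖ + (2 / r) ^ a) := by
    linarith
  have h10 : 0 ≤ (2 / r) ^ a := by positivity
  linarith

/-- The integral of the norm of the kernel tends to infinity. -/
theorem norm_int_atTop {a : ℕ} (ha : m < a) :
    Tendsto (fun z : ℝ => ∫ k, ‖kern a φ z k‖ ∂μ) (𝓝[<] 1) atTop := by
  obtain ⟨r, hr, hn⟩ := exists_near h a
  obtain ⟨c, hc, hvol⟩ := h.vol
  -- lower bound
  have key : ∀ᶠ z : ℝ in 𝓝[<] 1, c / 4 ^ a * (1 - z)⁻¹ ≤ ∫ k, ‖kern a φ z k‖ ∂μ := by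
    have hr1 : ∀ᶠ z : ℝ in 𝓝[<] 1, 1 - r < z :=
      mem_nhdsWithin_of_mem_nhds (lt_mem_nhds (by linarith))
    filter_upwards [ev_half, hr1] with z hz hzr
    obtain ⟨hz, hz1⟩ := hz
    have hz0 : 0 < 1 - z := by linarith
    have hi := (kern_int h a (by linarith : (0 : ℝ) ≤ z) hz1 (μ := μ)).norm
    have hm := near_meas h (1 - z)
    set N := {k | 1 - (φ k).re < 1 - z} with hN
    have h1 : ∫ k in N, ‖kern a φ z k‖ ∂μ ≤ ∫ k, ‖kern a φ z k‖ ∂μ :=
      setIntegral_le_integral hi (Eventually.of_forall fun _ => norm_nonneg _)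
    refine le_trans ?_ h1
    have h2 : ∀ k ∈ N, ((4 * (1 - z)) ^ a)⁻¹ ≤ ‖kern a φ z k‖ := by
      intro k hk
      have hk' : 1 - (φ k).re < 1 - z := hk
      unfold kern
      rw [norm_inv, norm_pow]
      have h3 := (hn z (by linarith) hz1 k (by linarith)).2
      have h4 : 0 < ‖1 - z * φ k‖ := norm_pos_iff.mpr (q_ne h (by linarith) hz1 k)
      gcongr
      linarith
    have h5 : μ.real N * ((4 * (1 - z)) ^ a)⁻¹ ≤ ∫ k in N, ‖kern a φ z k‖ ∂μ := by
      calc μ.real N * ((4 * (1 - z)) ^ a)⁻¹ = ∫ k in N, ((4 * (1 - z)) ^ a)⁻¹ ∂μ := by simp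
        _ ≤ _ := setIntegral_mono_on (integrable_const _) hi.integrableOn hm h2
    refine le_trans ?_ h5
    have h6 := hvol (1 - z) hz0 (by linarith)
    calc c / 4 ^ a * (1 - z)⁻¹ ≤ c * (1 - z) ^ m * ((4 * (1 - z)) ^ a)⁻¹ := by
          rw [mul_pow, mul_inv, div_eq_mul_inv]
          have h7 : (1 - z)⁻¹ ≤ (1 - z) ^ m * ((1 - z) ^ a)⁻¹ := by
            obtain ⟨d, rfl⟩ : ∃ d, a = m + 1 + d := ⟨a - (m + 1), by omega⟩
            rw [pow_add, pow_add, pow_one, mul_inv, mul_inv]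
            have h8 : (1 - z) ^ m ≠ 0 := (pow_pos hz0 _).ne'
            have h9 : 1 ≤ ((1 - z) ^ d)⁻¹ :=
              one_le_inv_iff₀.mpr ⟨pow_pos hz0 _, pow_le_one₀ hz0.le (by linarith)⟩
            calc (1 - z)⁻¹ = (1 - z)⁻¹ * 1 := (mul_one _).symm
              _ ≤ (1 - z)⁻¹ * ((1 - z) ^ d)⁻¹ := by gcongr
              _ = (1 - z) ^ m * (((1 - z) ^ m)⁻¹ * (1 - z)⁻¹ * ((1 - z) ^ d)⁻¹) := by
                  field_simp
          calc c * (4 ^ a)⁻¹ * (1 - z)⁻¹ ≤ c * (4 ^ a)⁻¹ * ((1 - z) ^ m * ((1 - z) ^ a)⁻¹) := by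
                gcongr
            _ = c * (1 - z) ^ m * ((4 ^ a)⁻¹ * ((1 - z) ^ a)⁻¹) := by ring
      _ ≤ μ.real N * ((4 * (1 - z)) ^ a)⁻¹ := by
          gcongr
  refine tendsto_atTop_mono' _ key ?_
  refine Tendsto.const_mul_atTop (by positivity) ?_
  refine tendsto_inv_nhdsGT_zero.comp ?_
  rw [tendsto_nhdsWithin_iff]
  constructor
  · have : Tendsto (fun z : ℝ => 1 - z) (𝓝 1) (𝓝 (1 - 1)) := by
      exact (continuous_const.sub continuous_id).tendsto 1
    rw [sub_self] at this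
    exact this.mono_left nhdsWithin_le_nhds
  · filter_upwards [self_mem_nhdsWithin] with z hz
    show 0 < 1 - z
    have : z < 1 := hz
    linarith

/-- The norm of the integral of the kernel tends to infinity. -/
theorem int_atTop {a : ℕ} (ha : m < a) :
    Tendsto (fun z : ℝ => ‖∫ k, kern a φ z k ∂μ‖) (𝓝[<] 1) atTop := by
  obtain ⟨C, hC, hC'⟩ := norm_le_main h a (μ := μ)
  have h1 := norm_int_atTop h ha
  have h2 : Tendsto (fun z : ℝ => 3 / 5 * ((∫ k, ‖kern a φ z k‖ ∂μ) + -C)) (𝓝[<] 1) atTop :=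
    Tendsto.const_mul_atTop (by norm_num) (tendsto_atTop_add_const_right _ (-C) h1)
  refine tendsto_atTop_mono' _ ?_ h2
  filter_upwards [ev_half] with z hz
  have := (hC' z hz.1 hz.2).1
  linarith

/-- The integral of the norm is at most twice the norm of the integral. -/
theorem norm_le_two {a : ℕ} (ha : m < a) :
    ∀ᶠ z : ℝ in 𝓝[<] 1, ∫ k, ‖kern a φ z k‖ ∂μ ≤ 2 * ‖∫ k, kern a φ z k ∂μ‖ := by
  obtain ⟨C, hC, hC'⟩ := norm_le_main h a (μ := μ)
  filter_upwards [ev_half, (int_atTop h ha).eventually_ge_atTop (3 * C)] with z hz h1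
  have := (hC' z hz.1 hz.2).1
  linarith

/-- Integrals of functions which are small near the peak. -/
theorem small {W : Type*} [NormedAddCommGroup W] [NormedSpace ℂ W] {a : ℕ} (ha : m < a)
    (F : ℝ → K → W) {M : ℝ} (hM : ∀ z k, 1 / 2 ≤ z → z < 1 → ‖F z k‖ ≤ M)
    (hF : ∀ ε : ℝ, 0 < ε → ∃ r : ℝ, 0 < r ∧ ∀ z k, 1 / 2 ≤ z → z < 1 → 1 - (φ k).re < r →
      ‖F z k‖ ≤ ε) :
    Tendsto (fun z : ℝ => (∫ k, kern a φ z k ∂μ)⁻¹ • ∫ k, kern a φ z k • F z k ∂μ) (𝓝[<] 1)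
      (𝓝 0) := by
  rw [Metric.tendsto_nhds]
  intro ε hε
  obtain ⟨r, hr, hr'⟩ := hF (ε / 4) (by positivity)
  have hM0 : 0 ≤ |M| := abs_nonneg M
  filter_upwards [ev_half, norm_le_two h ha,
    (int_atTop h ha).eventually_ge_atTop (4 * ((|M| + 1) * (2 / r) ^ a) / ε + 1)] with z hz h1 h2
  obtain ⟨hz, hz1⟩ := hz
  have hi := (kern_int h a (by linarith : (0 : ℝ) ≤ z) hz1 (μ := μ)).norm
  set Z := ∫ k, kern a φ z k ∂μ with hZ
  have hZ0 : 0 < ‖Z‖ := by
    have : 0 ≤ 4 * ((|M| + 1) * (2 / r) ^ a) / ε := by positivity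
    linarith
  rw [dist_zero_right, norm_smul, norm_inv]
  have h3 : ‖∫ k, kern a φ z k • F z k ∂μ‖ ≤
      ∫ k, (ε / 4 * ‖kern a φ z k‖ + (|M| + 1) * (2 / r) ^ a) ∂μ := by
    refine norm_integral_le_of_norm_le ((hi.const_mul _).add (integrable_const _))
      (Eventually.of_forall fun k => ?_)
    rw [norm_smul]
    have h10 : 0 ≤ (|M| + 1) * (2 / r) ^ a := by positivity
    by_cases hk : 1 - (φ k).re < r
    · have h4 := hr' z k hz hz1 hk
      have h5 := mul_le_mul_of_nonneg_left h4 (norm_nonneg (kern a φ z k))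
      linarith
    · have h4 := kern_far h a hz hz1 hr (not_lt.mp hk)
      have h5 := hM z k hz hz1
      have h6 : ‖F z k‖ ≤ |M| + 1 := by
        have := le_abs_self M
        linarith
      have h7 : ‖kern a φ z k‖ * ‖F z k‖ ≤ (2 / r) ^ a * (|M| + 1) :=
        mul_le_mul h4 h6 (norm_nonneg _) (by positivity)
      have h8 : 0 ≤ ε / 4 * ‖kern a φ z k‖ := by positivity
      linarith
  rw [integral_add (hi.const_mul _) (integrable_const _), integral_const_mul] at h3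
  simp only [integral_const, probReal_univ, smul_eq_mul, one_mul] at h3
  have h4 : ‖∫ k, kern a φ z k • F z k ∂μ‖ ≤ ε / 2 * ‖Z‖ + (|M| + 1) * (2 / r) ^ a := by
    have : ε / 4 * ∫ k, ‖kern a φ z k‖ ∂μ ≤ ε / 4 * (2 * ‖Z‖) := by gcongr
    linarith
  have h5 : (|M| + 1) * (2 / r) ^ a < ε / 4 * ‖Z‖ := by
    have h6 : 4 * ((|M| + 1) * (2 / r) ^ a) / ε < ‖Z‖ := by linarith
    rw [div_lt_iff₀ hε] at h6
    linarith
  rw [inv_mul_lt_iff₀ hZ0]
  nlinarith

/-- Means with the kernel converge to the value at the peak. -/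
theorem lim {W : Type*} [NormedAddCommGroup W] [NormedSpace ℂ W] [CompleteSpace W] {a : ℕ}
    (ha : m < a) (F : K → W) (hFc : Continuous F) (w : W) (hw : ∀ k, φ k = 1 → F k = w) :
    Tendsto (fun z : ℝ => (∫ k, kern a φ z k ∂μ)⁻¹ • ∫ k, kern a φ z k • F k ∂μ) (𝓝[<] 1)
      (𝓝 w) := by
  have hbd : ∃ M, ∀ k, ‖F k - w‖ ≤ M := by
    obtain ⟨M, hM⟩ := (isCompact_range (hFc.sub (continuous_const : Continuous fun _ : K => w)).norm).bddAbove
    exact ⟨M, fun k => hM ⟨k, rfl⟩⟩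
  obtain ⟨M, hM⟩ := hbd
  have h1 := small h ha (μ := μ) (fun _ k => F k - w) (fun _ k _ _ => hM k) (by
    intro ε hε
    set A := {k | ε ≤ ‖F k - w‖} with hA
    have hAc : IsCompact A :=
      (isClosed_le continuous_const (hFc.sub continuous_const).norm).isCompact
    by_cases hne : A.Nonempty
    · obtain ⟨k0, hk0, hmin⟩ := hAc.exists_isMinOn hne
        (f := fun k => 1 - (φ k).re)
        (continuous_const.sub (Complex.continuous_re.comp h.cont)).continuousOn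
      refine ⟨1 - (φ k0).re, ?_, ?_⟩
      · have h2 := re_le h k0
        rcases h2.lt_or_eq with h3 | h3
        · linarith
        · exfalso
          have h4 : φ k0 = 1 := by
            have h5 := h.le k0
            have h6 := Complex.abs_im_le_norm (φ k0)
            have h7 : (φ k0).re ^ 2 + (φ k0).im ^ 2 ≤ 1 := by
              have h8 := Complex.sq_norm (φ k0)
              rw [Complex.normSq_apply] at h8
              nlinarith [norm_nonneg (φ k0)]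
            have h8 : (φ k0).im = 0 := by
              rw [h3] at h7
              nlinarith [sq_nonneg (φ k0).im]
            exact Complex.ext h3 h8
          have h5 := hw k0 h4
          have h6 : ε ≤ ‖F k0 - w‖ := hk0
          rw [h5, sub_self, norm_zero] at h6
          linarith
      · intro z k _ _ hk
        by_contra hc
        push Not at hc
        have h2 : 1 - (φ k0).re ≤ 1 - (φ k).re := hmin (show k ∈ A from hc.le)
        linarith
    · refine ⟨1, one_pos, fun z k _ _ _ => ?_⟩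
      by_contra hc
      push Not at hc
      exact hne ⟨k, hc.le⟩)
  have h2 : Tendsto (fun z : ℝ => w + (∫ k, kern a φ z k ∂μ)⁻¹ •
      ∫ k, kern a φ z k • (F k - w) ∂μ) (𝓝[<] 1) (𝓝 (w + 0)) := tendsto_const_nhds.add h1
  rw [add_zero] at h2
  refine h2.congr' ?_
  filter_upwards [ev_half, (int_atTop h ha).eventually_ge_atTop 1] with z hz h3
  obtain ⟨hz, hz1⟩ := hz
  have hi := kern_int h a (by linarith : (0 : ℝ) ≤ z) hz1 (μ := μ)
  have hZ : (∫ k, kern a φ z k ∂μ) ≠ 0 := by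
    intro h0
    rw [h0, norm_zero] at h3
    linarith
  have hint : Integrable (fun k => kern a φ z k • F k) μ :=
    ((kern_cont h a (by linarith) hz1).smul hFc).integrable_of_hasCompactSupport
      (HasCompactSupport.of_compactSpace _)
  have h4 : ∫ k, kern a φ z k • (F k - w) ∂μ =
      (∫ k, kern a φ z k • F k ∂μ) - (∫ k, kern a φ z k ∂μ) • w := by
    simp only [smul_sub]
    rw [integral_sub hint (hi.smul_const w), integral_smul_const]
  rw [h4, smul_sub, smul_smul, inv_mul_cancel₀ hZ, one_smul]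
  abel

end peak

end

end RLap
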